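import Pool.Agent.H42.Dom4

namespace Pool.Agent.Results.MP_9098dd_gt.Q1

open Pool.Agent.H42.Dom

universe u

theorem result :
    ((¬ ∃ (T : Type) (_ : PartialOrder T), FreeSuslin T) →
      ∀ (X : Type u) [TopologicalSpace X] (k : ℕ), S1 X → S1 (Fin k → X)) ∧
    ((∃ (T : Type) (_ : PartialOrder T), FreeSuslin T) →
      ∃ (X : Type) (_ : TopologicalSpace X), T2Space X ∧
        TopologicalSpace.IsTopologicalBasis {s : Set X | IsClopen s} ∧
        S1 X ∧ ¬ S1 (Fin 2 → X)) := by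
  refine ⟨fun hn X _ k h => s1_iff.2 (Pool.Agent.H42.Dom.pos hn (s1_iff.1 h) k), ?_⟩
  rintro ⟨T, _, hT⟩
  exact ⟨Flag T, Pool.Agent.H42.Dom.top T, t2 hT, zerodim hT, sel_tree hT,
    fun h => not_sq hT (@sel_weak _ (_) _ ((@s1_iff _ (_)).1 h))⟩

end Pool.Agent.Results.MP_9098dd_gt.Q1
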