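import Pool.Agent.H42.Dom4

namespace Pool.Agent.Results.MP_9098dd_gt.Q2

open Pool.Agent.H42.Dom

universe u

theorem result :
    ((¬ ∃ (T : Type) (_ : PartialOrder T), FreeSuslin T) →
      ∀ (X : Type u) [TopologicalSpace X] (k : ℕ), Sfin X → Sfin (Fin k → X)) ∧
    ((∃ (T : Type) (_ : PartialOrder T), FreeSuslin T) →
      ∃ (X : Type) (_ : TopologicalSpace X), T2Space X ∧
        TopologicalSpace.IsTopologicalBasis {s : Set X | IsClopen s} ∧
        Sfin X ∧ ¬ Sfin (Fin 2 → X)) := by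
  refine ⟨fun hn X _ k h => sfin_iff.2 (Pool.Agent.H42.Dom.pos hn (sfin_iff.1 h) k), ?_⟩
  rintro ⟨T, _, hT⟩
  exact ⟨Flag T, Pool.Agent.H42.Dom.top T, t2 hT, zerodim hT,
    (@sfin_iff _ (_)).2 (@sel_weak _ (_) _ ((@s1_iff _ (_)).1 (sel_tree hT))),
    fun h => not_sq hT ((@sfin_iff _ (_)).1 h)⟩

end Pool.Agent.Results.MP_9098dd_gt.Q2
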